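import Pool.Agent.K7.H21.Sp.Cover

set_option autoImplicit false

/-!
# Reconstruction from gaps in the numbers of common neighbours of induced subgraphs

`T(G)` is the set of nonempty cliques of `G` ordered by inclusion. Let `v` be a vertex of a graph
`G` with at least three vertices. A neighbour `u` of `v` is called *secured* if it belongs to an
induced copy `φ`, in the neighbourhood of `v`, of some graph `F`, such that no induced copy of `F`
in `G` has exactly one common neighbour less than `φ`.

The theorem: if, for all neighbours `u` and nonneighbours `w ≠ v` of `v` with `deg u = deg w + 1`,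
`u` is secured in `G` or `w` is secured in the complement of `G`, then `T(G)` and `T(Gᶜ)` are
reconstructible from their decks of maximal filter deleted subsets.

Examples. (1) The case without pairs `u, w` is the well known condition on the degrees. (2) If every
edge of `G` lies in exactly `t ≥ 1` triangles, or more generally if every edge lies in a triangle
and the numbers of triangles on the edges do not take two consecutive values, then all neighbours of
all vertices are secured (`F` is an edge). (3) If the clique complex of `G` is a closed
pseudomanifold, or a pure complex in which the numbers of facets on the ridges do not take two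
consecutive values, then all neighbours of all vertices are secured (`F` is a
ridge). In particular the graphs of the flag triangulations of closed manifolds of any dimension
are reconstructible.

The proof. By a lemma of Kelly type, for every graph `F` with fewer vertices than `G` and every `c`,
hypomorphic graphs have the same number of induced copies of `F` with exactly `c` common neighbours,
unless one of them or its complement is disconnected. Let `K` be the copy of a hypomorphic
graph `H` which agrees with `G` off `v`. If a neighbour `u` of `v` in `G` is not one in `K`, then a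
copy of `F` in the neighbourhood which contains `u` has exactly one common neighbour less in `K`;
hence `u` is not secured. The degrees of the vertices whose adjacency to `v` differs are matched as
in the condition.
-/

namespace Pool.Agent.Results.MP_552896_co.CommonNeighbourGaps

/-- The truncated clique lattices of `G` and `H` have the same deck of maximal filter deleted
subsets: some bijection `f` of the vertex sets is such that, for every vertex `v`, the nonempty
cliques of `G` avoiding `v` and the nonempty cliques of `H` avoiding `f v`, both ordered by
inclusion, are isomorphic ordered sets. -/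
def SameDeck {V W : Type} (G : SimpleGraph V) (H : SimpleGraph W) : Prop :=
  ∃ f : V ≃ W, ∀ v : V,
    Nonempty ({s : Finset V // s.Nonempty ∧ G.IsClique (s : Set V) ∧ v ∉ s} ≃o
      {t : Finset W // t.Nonempty ∧ H.IsClique (t : Set W) ∧ f v ∉ t})

/-- `T(G)` is reconstructible from its deck: every truncated clique lattice `T(H)` of a finite
graph `H` with the same deck is isomorphic to `T(G)`. -/
def Reconstructible {V : Type} (G : SimpleGraph V) : Prop :=
  ∀ (W : Type) [Fintype W] (H : SimpleGraph W), SameDeck G H →
    Nonempty ({s : Finset V // s.Nonempty ∧ G.IsClique (s : Set V)} ≃o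
      {t : Finset W // t.Nonempty ∧ H.IsClique (t : Set W)})

/-- The number of common neighbours of all vertices of an induced copy `φ` of `F` in `G`. -/
noncomputable def commonNbrs {V : Type} (G : SimpleGraph V) {k : ℕ} {F : SimpleGraph (Fin k)}
    (φ : F ↪g G) : ℕ :=
  Nat.card {y : V // ∀ i, G.Adj (φ i) y}

/-- `u` is a secured neighbour of `v`: it belongs to an induced copy `φ` of some graph `F`, all
vertices of which are neighbours of `v`, such that no induced copy of `F` in `G` has exactly one
common neighbour less than `φ`. -/
def Secured {V : Type} (G : SimpleGraph V) (v u : V) : Prop :=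
  ∃ (k : ℕ) (F : SimpleGraph (Fin k)) (φ : F ↪g G), (∃ i, φ i = u) ∧ (∀ i, G.Adj v (φ i)) ∧
    ∀ ψ : F ↪g G, commonNbrs G φ ≠ commonNbrs G ψ + 1

lemma commonNbrs_eq {V : Type} [Fintype V] (G : SimpleGraph V) {k : ℕ} {F : SimpleGraph (Fin k)}
    (φ : F ↪g G) : commonNbrs G φ = Pool.Agent.K7.H21.Sp.cn G φ := by
  classical
  unfold commonNbrs Pool.Agent.K7.H21.Sp.cn Pool.Agent.K7.H21.Sp.CN
  rw [Nat.card_eq_fintype_card, Fintype.card_subtype]

lemma secured_cov {V : Type} [Fintype V] {G : SimpleGraph V} {v u : V} (h : Secured G v u) :
    Pool.Agent.K7.H21.Sp.Cov G v u := by
  obtain ⟨k, F, φ, hi, hv, hg⟩ := h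
  refine ⟨k, F, φ, ⟨φ.injective, fun i j => φ.map_adj_iff⟩, hi, hv, fun g hE => ?_⟩
  have := hg ⟨⟨g, hE.1⟩, fun {i j} => hE.2 i j⟩
  rw [commonNbrs_eq, commonNbrs_eq] at this
  exact this

open Classical in
/-- If `G` has at least three vertices and `v` is a vertex such that, for all neighbours `u` and all
nonneighbours `w ≠ v` of `v` with `deg u = deg w + 1`, `u` is a secured neighbour of `v` in `G` or
`w` is a secured neighbour of `v` in the complement of `G`, then `T(G)` and `T(Gᶜ)` are
reconstructible. -/
theorem result (V : Type) [Fintype V] (G : SimpleGraph V) (hV : 3 ≤ Fintype.card V) (v : V)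
    (h : ∀ u w, G.Adj v u → w ≠ v → ¬ G.Adj v w → G.degree u = G.degree w + 1 →
      Secured G v u ∨ Secured Gᶜ v w) :
    Reconstructible G ∧ Reconstructible Gᶜ := by
  have hd : ∀ x, Pool.Agent.K7.H21.Sp.dg G x = G.degree x := by
    intro x
    rw [Pool.Agent.K7.H21.Sp.dg_eq, ← SimpleGraph.card_neighborFinset_eq_degree,
      SimpleGraph.neighborFinset_eq_filter]
  refine Pool.Agent.TH87.RVE.rec_of G (∀ u w, G.Adj v u → w ≠ v → ¬ G.Adj v w →
      G.degree u = G.degree w + 1 → Secured G v u ∨ Secured Gᶜ v w)
    (fun H π hH hN h => Pool.Agent.K7.H21.Sp.cover_main hV hH hN v ?_) h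
  intro u w h1 h2 h3 h4
  rw [hd, hd] at h4
  rcases h u w h1 h2 h3 (by exact_mod_cast h4) with h5 | h5
  · exact Or.inl (secured_cov h5)
  · exact Or.inr (secured_cov h5)

end Pool.Agent.Results.MP_552896_co.CommonNeighbourGaps
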