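import Pool.Agent.K7.H21.Sp.SpreadG

set_option autoImplicit false

/-!
# Graphs whose nonmain eigenvalues lie in a short interval are reconstructible

`T(G)` is the set of nonempty cliques of `G` ordered by inclusion. Let `G` be a graph with at least
three vertices and let `[s, t]` be an interval of length less than the square root of `5` which
contains all eigenvalues of the adjacency matrix with an eigenvector orthogonal to the all ones
vector. Then `T(G)` and `T(Gᶜ)` are reconstructible from their decks of maximal filter deleted
subsets.

A theorem of Godsil and McKay (1981) is the case in which at most one eigenvalue has such an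
eigenvector, and this only up to multiples. Here the number of these eigenvalues, counted with
multiplicities, is arbitrary: they may be all equal, or `-1` and `0` (twins), or lie in
`[-1, 1]`, for example.

The proof. By Tutte's theorem, a hypomorphic graph `H` has the same spectrum and the
same numbers of walks at every vertex. Hence the adjacency matrices `A`, `B` of `G` and `H` agree
on the span `W` of the walk vectors, both preserve the orthogonal complement `U` of `W`, and a trace
argument shows that their eigenvalues on `U` are the same, so that `A - c` and `B - c` have norm
less than `√5 / 2` on `U` for the centre `c` of the interval. Among all permutations which fix the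
walk vectors take the one for which the permuted graph `G` and `H` have the largest number of common
edges. A column of the difference of the two matrices is a vector of `U`. The norm bound shows that
it has at most one entry `1`, at `x`, and one entry `-1`, at `y`, and then, for the vector
`e_x - e_y`, that `x` and `y` are distinguished by two vertices only, in both graphs. So the
transposition of `x` and `y` fixes the walk vectors and increases the number of common edges.
-/

namespace Pool.Agent.Results.MP_552896_co.NonmainEigenvalueSpread

/-- The truncated clique lattices of `G` and `H` have the same deck of maximal filter deleted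
subsets: some bijection `f` of the vertex sets is such that, for every vertex `v`, the nonempty
cliques of `G` avoiding `v` and the nonempty cliques of `H` avoiding `f v`, both ordered by
inclusion, are isomorphic ordered sets. -/
def SameDeck {V W : Type} (G : SimpleGraph V) (H : SimpleGraph W) : Prop :=
  ∃ f : V ≃ W, ∀ v : V,
    Nonempty ({s : Finset V // s.Nonempty ∧ G.IsClique (s : Set V) ∧ v ∉ s} ≃o
      {t : Finset W // t.Nonempty ∧ H.IsClique (t : Set W) ∧ f v ∉ t})

/-- `T(G)` is reconstructible from its deck: every truncated clique lattice `T(H)` of a finite
graph `H` with the same deck is isomorphic to `T(G)`. -/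
def Reconstructible {V : Type} (G : SimpleGraph V) : Prop :=
  ∀ (W : Type) [Fintype W] (H : SimpleGraph W), SameDeck G H →
    Nonempty ({s : Finset V // s.Nonempty ∧ G.IsClique (s : Set V)} ≃o
      {t : Finset W // t.Nonempty ∧ H.IsClique (t : Set W)})

open Classical in
/-- Let `G` have at least three vertices and `(t - s) ^ 2 < 5`. If every eigenvalue `θ` of the
adjacency matrix which has an eigenvector with sum of entries zero satisfies `s ≤ θ ≤ t`,
then `T(G)` and `T(Gᶜ)` are reconstructible. -/
theorem result (V : Type) [Fintype V] (G : SimpleGraph V) (hV : 3 ≤ Fintype.card V)
    (s t : ℝ) (hst : (t - s) ^ 2 < 5)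
    (h : ∀ (θ : ℝ) (f : V → ℝ), f ≠ 0 → Matrix.mulVec (G.adjMatrix ℝ) f = θ • f →
      ∑ x, f x = 0 → s ≤ θ ∧ θ ≤ t) :
    Reconstructible G ∧ Reconstructible Gᶜ := by
  have he : Pool.Agent.K7.H21.Sp.am G = G.adjMatrix ℝ := by
    ext x y
    rw [Pool.Agent.K7.H21.Sp.am_apply, SimpleGraph.adjMatrix_apply]
  rw [← he] at h
  exact Pool.Agent.TH87.RVE.rec_of G _
    (fun H π hH hN h => Pool.Agent.K7.H21.Sp.spread_main hV hH hN s t hst h) h

end Pool.Agent.Results.MP_552896_co.NonmainEigenvalueSpread
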