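import Pool.Agent.K7.H21.Sp.QuadG

set_option autoImplicit false

/-!
# Graphs with a quadratic identity are reconstructible

`T(G)` is the set of nonempty cliques of `G` ordered by inclusion. Let `A` be the adjacency matrix
of a graph `G` with at least three vertices and let `J` be the all ones matrix. If

`A ^ 2 = p A + q I + x J + y (A J + J A) + z A J A`

for some real numbers `p, q, x, y, z`, then `T(G)` and `T(Gᶜ)` are reconstructible from their decks
of maximal filter deleted subsets.

In coordinates the hypothesis says: the number of common neighbours of two vertices is a symmetric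
polynomial, of degree at most one in each of the two degrees, plus a constant multiple of adjacency
(and the diagonal, that is the degree sequence, satisfies the corresponding relation). These are
the graphs whose adjacency matrix, restricted to the orthogonal complement of the all ones
vector and the degree vector, satisfies a quadratic equation, the span of these two vectors being
invariant. Among them are the graphs obtained from a strongly regular graph by deleting
a vertex and the graphs whose Seidel matrix has two eigenvalues.

The proof. Tutte's theorem (in the form proved in `Pool.Agent.K7.H21.Sp.spectral`: the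
characteristic polynomial and the numbers of walks starting at each vertex are reconstructible) and
a sum of squares argument show that the identity, with the same coefficients, is inherited by every
hypomorphic graph `H`. Comparing the identities for `G` and for the copy of `H` which agrees with
`G` off a vertex `v` one gets a symmetric product of two vectors which vanishes; hence a relation
for the two adjacencies of `u` and `v` and the degree of `u`, for every pair `u ≠ v`. It forces
`z = -1` and that the neighbours of `v` in this copy are the vertices with degree `y - 1`, for every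
`v`. Then two cards, compared through a transposition, give an isomorphism from `G` to `H`.
-/

namespace Pool.Agent.Results.MP_552896_co.QuadraticIdentity

/-- The truncated clique lattices of `G` and `H` have the same deck of maximal filter deleted
subsets: some bijection `f` of the vertex sets is such that, for every vertex `v`, the nonempty
cliques of `G` avoiding `v` and the nonempty cliques of `H` avoiding `f v`, both ordered by
inclusion, are isomorphic ordered sets. -/
def SameDeck {V W : Type} (G : SimpleGraph V) (H : SimpleGraph W) : Prop :=
  ∃ f : V ≃ W, ∀ v : V,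
    Nonempty ({s : Finset V // s.Nonempty ∧ G.IsClique (s : Set V) ∧ v ∉ s} ≃o
      {t : Finset W // t.Nonempty ∧ H.IsClique (t : Set W) ∧ f v ∉ t})

/-- `T(G)` is reconstructible from its deck: every truncated clique lattice `T(H)` of a finite
graph `H` with the same deck is isomorphic to `T(G)`. -/
def Reconstructible {V : Type} (G : SimpleGraph V) : Prop :=
  ∀ (W : Type) [Fintype W] (H : SimpleGraph W), SameDeck G H →
    Nonempty ({s : Finset V // s.Nonempty ∧ G.IsClique (s : Set V)} ≃o
      {t : Finset W // t.Nonempty ∧ H.IsClique (t : Set W)})

/-- The all ones matrix. -/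
def J (V : Type) : Matrix V V ℝ := Matrix.of (fun _ _ => 1)

open Classical in
/-- If `G` has at least three vertices and its adjacency matrix `A` satisfies
`A ^ 2 = p A + q I + x J + y (A J + J A) + z A J A` for some real numbers, then `T(G)` and `T(Gᶜ)`
are reconstructible. -/
theorem result (V : Type) [Fintype V] (G : SimpleGraph V) (hV : 3 ≤ Fintype.card V)
    (p q x y z : ℝ)
    (h : (G.adjMatrix ℝ) ^ 2 = p • G.adjMatrix ℝ + q • (1 : Matrix V V ℝ) + x • J V +
      y • (G.adjMatrix ℝ * J V + J V * G.adjMatrix ℝ) +
      z • (G.adjMatrix ℝ * J V * G.adjMatrix ℝ)) :
    Reconstructible G ∧ Reconstructible Gᶜ := by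
  have he : Pool.Agent.K7.H21.Sp.am G = G.adjMatrix ℝ := by
    ext x y
    rw [Pool.Agent.K7.H21.Sp.am_apply, SimpleGraph.adjMatrix_apply]
  rw [← he] at h
  refine Pool.Agent.TH87.RVE.rec_of G (Pool.Agent.K7.H21.Sp.QI G p q x y z)
    (fun H π hH hN h3 => Pool.Agent.K7.H21.Sp.quad_main hV hH hN h3) ?_
  intro u w
  have h1 := congrFun (congrFun h u) w
  rw [Pool.Agent.K7.H21.Sp.s2_eq] at h1
  rw [h1]
  have e1 : (Pool.Agent.K7.H21.Sp.am G * J V) u w = Pool.Agent.K7.H21.Sp.dg G u := by
    rw [Matrix.mul_apply]
    exact Finset.sum_congr rfl fun t _ => by simp [J]
  have e2 : (J V * Pool.Agent.K7.H21.Sp.am G) u w = Pool.Agent.K7.H21.Sp.dg G w := by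
    rw [Matrix.mul_apply]
    exact Finset.sum_congr rfl fun t _ => by
      rw [Pool.Agent.K7.H21.Sp.am_symm G t w]; simp [J]
  have e3 : (Pool.Agent.K7.H21.Sp.am G * J V * Pool.Agent.K7.H21.Sp.am G) u w =
      Pool.Agent.K7.H21.Sp.dg G u * Pool.Agent.K7.H21.Sp.dg G w := by
    rw [Matrix.mul_apply]
    have e4 : ∀ t, (Pool.Agent.K7.H21.Sp.am G * J V) u t = Pool.Agent.K7.H21.Sp.dg G u := by
      intro t
      rw [Matrix.mul_apply]
      exact Finset.sum_congr rfl fun t _ => by simp [J]
    have e5 : Pool.Agent.K7.H21.Sp.dg G w = ∑ t, Pool.Agent.K7.H21.Sp.am G t w :=
      Finset.sum_congr rfl fun t _ => Pool.Agent.K7.H21.Sp.am_symm G w t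
    rw [e5, Finset.mul_sum]
    exact Finset.sum_congr rfl fun t _ => by rw [e4]
  simp only [Matrix.add_apply, Matrix.smul_apply, smul_eq_mul, e1, e2, e3, Matrix.one_apply]
  have e6 : J V u w = 1 := rfl
  rw [e6]
  split_ifs <;> ring

end Pool.Agent.Results.MP_552896_co.QuadraticIdentity
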