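import Pool.Agent.K7.H21.Sp.Three

set_option autoImplicit false

/-!
# Graphs with at most three distinct eigenvalues are reconstructible

`T(G)` is the set of nonempty cliques of `G` ordered by inclusion. If the adjacency matrix of a
graph `G` with at least three vertices has at most three distinct eigenvalues, then `T(G)` and `T`
of the complement of `G` are reconstructible from their decks of maximal filter deleted subsets.

The graph need not be regular: the nonregular graphs with three distinct eigenvalues are the case
of interest.

The proof. The theorem of Tutte on the characteristic polynomial of a hypomorphic graph is proved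
in the form: hypomorphic symmetric real matrices with zero diagonal have constant row sums, or the
same characteristic polynomial and the same numbers of walks starting in every vertex
(`Pool.Agent.K7.H21.Sp.tutte`; a comparison of leading coefficients in the Jacobi identity for the
numbers of walks). So a hypomorphic graph `H` satisfies the same equation
`A ^ 3 = a A ^ 2 + b A + c`. For a vertex `v` with neighbourhood vector `y` and `K` the adjacency
matrix of the card, this gives the symmetric product of the vectors `y` and `K y - (a / 2) y`. Hence
there are at most two candidates for `y`, and the second one contains all vertices which are not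
adjacent to `v` and have a constant number of common neighbours with `v`. If this happens at every
vertex, the vector of the degrees is a Perron eigenvector, and the rank one part of the quadratic
factor shows that all nonneighbours of a vertex have the same degree. Then the card of a nonneighbour
of a vertex of the largest degree determines the graph.
-/

namespace Pool.Agent.Results.MP_552896_co.ThreeEigenvalues

/-- The truncated clique lattices of `G` and `H` have the same deck of maximal filter deleted
subsets: some bijection `f` of the vertex sets is such that, for every vertex `v`, the nonempty
cliques of `G` avoiding `v` and the nonempty cliques of `H` avoiding `f v`, both ordered by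
inclusion, are isomorphic ordered sets. -/
def SameDeck {V W : Type} (G : SimpleGraph V) (H : SimpleGraph W) : Prop :=
  ∃ f : V ≃ W, ∀ v : V,
    Nonempty ({s : Finset V // s.Nonempty ∧ G.IsClique (s : Set V) ∧ v ∉ s} ≃o
      {t : Finset W // t.Nonempty ∧ H.IsClique (t : Set W) ∧ f v ∉ t})

/-- `T(G)` is reconstructible from its deck: every truncated clique lattice `T(H)` of a finite
graph `H` with the same deck is isomorphic to `T(G)`. -/
def Reconstructible {V : Type} (G : SimpleGraph V) : Prop :=
  ∀ (W : Type) [Fintype W] (H : SimpleGraph W), SameDeck G H →
    Nonempty ({s : Finset V // s.Nonempty ∧ G.IsClique (s : Set V)} ≃o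
      {t : Finset W // t.Nonempty ∧ H.IsClique (t : Set W)})

open Classical in
/-- If `G` has at least three vertices and its adjacency matrix has at most three distinct
eigenvalues, then `T(G)` and `T(Gᶜ)` are reconstructible. -/
theorem result (V : Type) [Fintype V] (G : SimpleGraph V) (hV : 3 ≤ Fintype.card V)
    (h : (spectrum ℝ (G.adjMatrix ℝ)).ncard ≤ 3) :
    Reconstructible G ∧ Reconstructible Gᶜ := by
  have he : Pool.Agent.K7.H21.Sp.am G = G.adjMatrix ℝ := by
    ext x y
    rw [Pool.Agent.K7.H21.Sp.am_apply, SimpleGraph.adjMatrix_apply]
  rw [← he] at h
  exact Pool.Agent.TH87.RVE.rec_of G _
    (fun H π hH hN h3 => Pool.Agent.K7.H21.Sp.three_main hV hH hN h3) h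

end Pool.Agent.Results.MP_552896_co.ThreeEigenvalues
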